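import Pool.Agent.Helper21.HP.Char

/-!
# Mertens' theorems (project HP, block B1a)

`∑_{p ≤ x} log p / p = log x + O(1)` from `∑ Λ(d) ⌊N/d⌋ = log N!`, and `∑_{p ≤ x} 1/p = log log x + O(1)` by
Abel summation.
-/

set_option autoImplicit false

open Filter Topology
open scoped ArithmeticFunction

namespace Pool.Agent.Helper21.HP

theorem log_fact (N : ℕ) : ∑ n ∈ Finset.range (N + 1), Real.log n = ∑ d ∈ Finset.range (N + 1), Λ d * ((N / d : ℕ) : ℝ) := by
  classical
  have e1 : ∀ n ∈ Finset.range (N + 1), Real.log n = ∑ d ∈ Finset.range (N + 1), if (n ≠ 0 ∧ d ∣ n) then Λ d else 0 := by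
    intro n hn
    rw [Finset.mem_range] at hn
    rw [← ArithmeticFunction.vonMangoldt_sum, ← Finset.sum_filter]
    apply Finset.sum_congr
    · ext d
      rw [Nat.mem_divisors, Finset.mem_filter, Finset.mem_range]
      constructor
      · rintro ⟨h1, h2⟩
        have := Nat.le_of_dvd (Nat.pos_of_ne_zero h2) h1
        exact ⟨by omega, h2, h1⟩
      · rintro ⟨_, h2, h1⟩
        exact ⟨h1, h2⟩
    · intro d _; rfl
  rw [Finset.sum_congr rfl e1, Finset.sum_comm]
  refine Finset.sum_congr rfl fun d _ => ?_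
  rw [← Finset.sum_filter, Finset.sum_const, nsmul_eq_mul, ← Nat.card_multiples' N d]
  ring

theorem log_fact_lower (N : ℕ) : N * Real.log N - N ≤ ∑ n ∈ Finset.range (N + 1), Real.log n := by
  induction N with
  | zero => simp
  | succ N ih =>
    rw [Finset.sum_range_succ]
    rcases Nat.eq_zero_or_pos N with rfl | hN
    · simp
    have hN0 : (0:ℝ) < N := by exact_mod_cast hN
    have h1 : Real.log ((N + 1 : ℕ) : ℝ) - Real.log N ≤ 1 / N := by
      rw [← Real.log_div (by positivity) hN0.ne']
      refine (Real.log_le_sub_one_of_pos (by positivity)).trans (le_of_eq ?_)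
      push_cast
      field_simp
      ring
    have h2 : (N : ℝ) * (Real.log ((N + 1 : ℕ) : ℝ) - Real.log N) ≤ 1 := by
      calc (N : ℝ) * (Real.log ((N + 1 : ℕ) : ℝ) - Real.log N) ≤ N * (1 / N) := by gcongr
        _ = 1 := by field_simp
    have h3 : (((N + 1 : ℕ) : ℝ)) = N + 1 := by push_cast; ring
    have h4 : (((N + 1 : ℕ) : ℝ)) * Real.log ((N + 1 : ℕ) : ℝ) - ((N + 1 : ℕ) : ℝ) =
        (N : ℝ) * (Real.log ((N + 1 : ℕ) : ℝ) - Real.log N) - 1 + (N * Real.log N - N) + Real.log ((N + 1 : ℕ) : ℝ) := by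
      generalize Real.log ((N + 1 : ℕ) : ℝ) = w
      rw [h3]; ring
    rw [h4]
    linarith

theorem log_fact_upper (N : ℕ) : ∑ n ∈ Finset.range (N + 1), Real.log n ≤ N * Real.log N := by
  rw [Finset.sum_range_succ']
  simp only [Nat.cast_zero, Real.log_zero, add_zero]
  calc ∑ k ∈ Finset.range N, Real.log ((k + 1 : ℕ) : ℝ) ≤ ∑ k ∈ Finset.range N, Real.log N := by
        refine Finset.sum_le_sum fun k hk => ?_
        rw [Finset.mem_range] at hk
        apply Real.log_le_log (by positivity)
        exact_mod_cast hk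
    _ = _ := by rw [Finset.sum_const, Finset.card_range, nsmul_eq_mul]

theorem vM_lower {N : ℕ} (hN : 1 ≤ N) : Real.log N - 1 ≤ ∑ d ∈ Finset.range (N + 1), Λ d / d := by
  have hN0 : (0:ℝ) < N := by exact_mod_cast hN
  have h1 := log_fact_lower N
  rw [log_fact] at h1
  have h3 : ∑ d ∈ Finset.range (N + 1), Λ d * ((N / d : ℕ) : ℝ) ≤ ∑ d ∈ Finset.range (N + 1), (N:ℝ) * (Λ d / d) := by
    refine Finset.sum_le_sum fun d _ => ?_
    have h9 := @ArithmeticFunction.vonMangoldt_nonneg d
    calc Λ d * ((N / d : ℕ) : ℝ) ≤ Λ d * ((N : ℝ) / d) := by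
          gcongr
          exact Nat.cast_div_le
      _ = _ := by ring
  rw [← Finset.mul_sum] at h3
  have h4 : (N : ℝ) * (Real.log N - 1) ≤ N * ∑ d ∈ Finset.range (N + 1), Λ d / d := by linarith
  exact le_of_mul_le_mul_left h4 hN0

theorem vM_upper {N : ℕ} (hN : 1 ≤ N) : ∑ d ∈ Finset.range (N + 1), Λ d / d ≤ Real.log N + (Real.log 4 + 4) := by
  have hN0 : (0:ℝ) < N := by exact_mod_cast hN
  have h1 := log_fact_upper N
  rw [log_fact] at h1
  have h3 : ∑ d ∈ Finset.range (N + 1), (N:ℝ) * (Λ d / d) ≤ ∑ d ∈ Finset.range (N + 1), (Λ d * ((N / d : ℕ) : ℝ) + Λ d) := by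
    refine Finset.sum_le_sum fun d _ => ?_
    have h9 := @ArithmeticFunction.vonMangoldt_nonneg d
    rcases Nat.eq_zero_or_pos d with rfl | hd
    · simp
    have hd0 : (0:ℝ) < d := by exact_mod_cast hd
    have h6 : N < d * (N / d) + d := by
      have := Nat.div_add_mod N d
      have := Nat.mod_lt N hd
      omega
    have h8 : (N:ℝ) ≤ (((N / d : ℕ) : ℝ) + 1) * d := by
      have : (N:ℝ) < d * ((N / d : ℕ) : ℝ) + d := by exact_mod_cast h6
      linarith
    have h10 : (N : ℝ) / d ≤ ((N / d : ℕ) : ℝ) + 1 := by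
      rw [div_le_iff₀ hd0]; exact h8
    calc (N:ℝ) * (Λ d / d) = Λ d * ((N : ℝ) / d) := by ring
      _ ≤ Λ d * (((N / d : ℕ) : ℝ) + 1) := by gcongr
      _ = _ := by ring
  rw [← Finset.mul_sum, Finset.sum_add_distrib] at h3
  have h4 := psi_range N
  have h5 : N * ∑ d ∈ Finset.range (N + 1), Λ d / d ≤ N * (Real.log N + (Real.log 4 + 4)) := by linarith
  exact le_of_mul_le_mul_left h5 hN0

/-- `log p / p` at the primes -/
noncomputable def aP (n : ℕ) : ℝ := if n.Prime then Real.log n / n else 0

theorem exists_W : ∃ C : ℝ, 0 ≤ C ∧ ∀ N : ℕ, 1 ≤ N → |∑ n ∈ Finset.Ioc 0 N, aP n - Real.log N| ≤ C := by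
  obtain ⟨C2, hC2, h2⟩ := non_primes
  have hlog4 : 0 ≤ Real.log 4 := Real.log_nonneg (by norm_num)
  refine ⟨C2 + (Real.log 4 + 4), by positivity, fun N hN => ?_⟩
  have h3 : ∑ n ∈ Finset.Ioc 0 N, aP n = ∑ d ∈ Finset.range (N + 1), Λ d / d -
      ∑ n ∈ Finset.Ioc 0 N, (if n.Prime then 0 else Λ n) / (n : ℝ) := by
    rw [← sum_Ioc_eq_range (fun d => Λ d / d) (by simp) N, ← Finset.sum_sub_distrib]
    refine Finset.sum_congr rfl fun n _ => ?_
    unfold aP
    by_cases hp : n.Prime
    · rw [if_pos hp, if_pos hp, ArithmeticFunction.vonMangoldt_apply_prime hp]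
      ring
    · rw [if_neg hp, if_neg hp]
      ring
  have h4 : 0 ≤ ∑ n ∈ Finset.Ioc 0 N, (if n.Prime then 0 else Λ n) / (n : ℝ) := by
    refine Finset.sum_nonneg fun n _ => ?_
    have := @ArithmeticFunction.vonMangoldt_nonneg n
    split_ifs <;> positivity
  have h5 := h2 (Finset.Ioc 0 N)
  have h6 := vM_lower hN
  have h7 := vM_upper hN
  rw [h3, abs_le]
  constructor <;> linarith

/-- the integral of `1 / (t log t)` -/
theorem loglog_sum {x : ℕ} (hx : 2 ≤ x) :
    |∑ n ∈ Finset.Ioc 2 x, (Real.log n - Real.log ((n - 1 : ℕ) : ℝ)) / Real.log n -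
      (Real.log (Real.log x) - Real.log (Real.log 2))| ≤ 1 / Real.log 2 - 1 / Real.log x := by
  induction x, hx using Nat.le_induction with
  | base => simp
  | succ x hx ih =>
    rw [Finset.sum_Ioc_succ_top (by omega : 2 ≤ x)]
    have hx1 : (1 : ℝ) < x := by exact_mod_cast (by omega : 1 < x)
    have hu : 0 < Real.log x := Real.log_pos hx1
    have huv : Real.log x ≤ Real.log ((x + 1 : ℕ) : ℝ) := Real.log_le_log (by linarith) (by push_cast; linarith)
    have hv1 : Real.log ((x + 1 : ℕ) : ℝ) - Real.log x ≤ 1 := by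
      rw [← Real.log_div (by positivity) (by linarith)]
      refine (Real.log_le_sub_one_of_pos (by positivity)).trans ?_
      push_cast
      rw [sub_le_iff_le_add, div_le_iff₀ (by linarith)]
      linarith
    simp only [Nat.add_sub_cancel]
    set u := Real.log x
    set v := Real.log ((x + 1 : ℕ) : ℝ)
    have hv : 0 < v := by linarith
    set L := ∑ n ∈ Finset.Ioc 2 x, (Real.log n - Real.log ((n - 1 : ℕ) : ℝ)) / Real.log n
    have h1 : Real.log v - Real.log u ≤ (v - u) / u := by
      rw [← Real.log_div hv.ne' hu.ne']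
      refine (Real.log_le_sub_one_of_pos (by positivity)).trans (le_of_eq ?_)
      field_simp
    have h2 : (v - u) / v ≤ Real.log v - Real.log u := by
      have h3 : Real.log u - Real.log v ≤ u / v - 1 := by
        rw [← Real.log_div hu.ne' hv.ne']
        exact Real.log_le_sub_one_of_pos (by positivity)
      have h4 : (v - u) / v = -(u / v - 1) := by field_simp; ring
      rw [h4]
      linarith
    have h5 : (v - u) / u - (v - u) / v ≤ 1 / u - 1 / v := by
      have e1 : (v - u) / u - (v - u) / v = (v - u) * (1 / u - 1 / v) := by ring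
      have e2 : 0 ≤ 1 / u - 1 / v := by
        have := one_div_le_one_div_of_le hu huv
        linarith
      rw [e1]
      exact mul_le_of_le_one_left e2 hv1
    have k := abs_le.mp ih
    rw [abs_le]
    constructor <;> linarith [k.1, k.2]

/-- BLOCK B1a: Mertens. -/
theorem mert : Pool.Agent.HP.StmtMert := by
  obtain ⟨C, hC, h1⟩ := exists_W
  have hlog2 : 0 < Real.log 2 := Real.log_pos (by norm_num)
  -- the error term and its increments
  set E : ℕ → ℝ := fun n => if n = 0 then 0 else ∑ m ∈ Finset.Ioc 0 n, aP m - Real.log n with hE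
  set e : ℕ → ℝ := fun n => E n - E (n - 1) with he
  have hEsum : ∀ n, ∑ m ∈ Finset.Ioc 0 n, e m = E n := by
    intro n
    induction n with
    | zero => simp [hE]
    | succ n ih =>
      rw [Finset.sum_Ioc_succ_top (Nat.zero_le n), ih, he]
      simp
  have hEb : ∀ n, |E n| ≤ C := by
    intro n
    rcases Nat.eq_zero_or_pos n with rfl | hn
    · simp [hE, hC]
    · simp only [hE]
      rw [if_neg (by omega)]
      exact h1 n hn
  refine ⟨2 * C * (1 / Real.log 2) + 1 / Real.log 2 + |Real.log (Real.log 2)| + 1 + C, fun x hx => ⟨?_, ?_⟩⟩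
  · have hx1 : (1 : ℝ) < x := by exact_mod_cast (by omega : 1 < x)
    have e1 : ∑ p ∈ Pool.Agent.HP.PP 1 x, (1 : ℝ) / p = ∑ n ∈ Finset.Ioc 1 x, aP n * (1 / Real.log n) := by
      unfold Pool.Agent.HP.PP
      rw [Finset.sum_filter]
      symm
      apply Finset.sum_subset_zero_on_sdiff (g := fun n : ℕ => if n.Prime ∧ ¬ n ∣ 1 then (1 : ℝ) / n else 0)
      · intro n hn
        rw [Finset.mem_Ioc] at hn
        rw [Finset.mem_range]
        omega
      · intro n hn
        rw [Finset.mem_sdiff, Finset.mem_range, Finset.mem_Ioc] at hn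
        rw [if_neg]
        rintro ⟨hp, _⟩
        have := hp.two_le
        omega
      · intro n hn
        unfold aP
        by_cases hp : n.Prime
        · have hlog : Real.log n ≠ 0 := (Real.log_pos (by exact_mod_cast hp.one_lt)).ne'
          rw [if_pos hp, if_pos ⟨hp, hp.not_dvd_one⟩]
          field_simp
        · rw [if_neg hp, if_neg (fun h => hp h.1), zero_mul]
    have e2 : ∀ n ∈ Finset.Ioc 1 x, aP n * (1 / Real.log n) = e n * (1 / Real.log n) +
        (Real.log n - Real.log ((n - 1 : ℕ) : ℝ)) / Real.log n := by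
      intro n hn
      rw [Finset.mem_Ioc] at hn
      obtain ⟨m, rfl⟩ : ∃ m, n = m + 1 := ⟨n - 1, by omega⟩
      have hm : m ≠ 0 := by omega
      have e3 : e (m + 1) = aP (m + 1) - (Real.log ((m + 1 : ℕ) : ℝ) - Real.log m) := by
        simp only [he, hE, Nat.add_sub_cancel]
        rw [if_neg (by omega), if_neg hm, Finset.sum_Ioc_succ_top (Nat.zero_le m)]
        ring
      rw [e3, Nat.add_sub_cancel]
      ring
    rw [e1, Finset.sum_congr rfl e2, Finset.sum_add_distrib]
    have h2 := abel e (fun n : ℕ => 1 / Real.log n) (K := C) (fun n => by rw [hEsum]; exact hEb n) (show 1 ≤ x by omega)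
      (fun n _ => by
        have := Real.log_natCast_nonneg n
        positivity) (fun n hn => by
        have h3 : (1 : ℝ) < n := by exact_mod_cast (show 1 < n by omega)
        have h4 := Real.log_pos h3
        apply one_div_le_one_div_of_le h4
        apply Real.log_le_log (by linarith)
        push_cast
        linarith)
    have h3 := loglog_sum hx
    have h4 : ∑ n ∈ Finset.Ioc 1 x, (Real.log n - Real.log ((n - 1 : ℕ) : ℝ)) / Real.log n =
        1 + ∑ n ∈ Finset.Ioc 2 x, (Real.log n - Real.log ((n - 1 : ℕ) : ℝ)) / Real.log n := by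
      rw [← Finset.sum_Ioc_consecutive _ (show 1 ≤ 2 by norm_num) hx]
      congr 1
      rw [show Finset.Ioc 1 2 = {2} by rfl, Finset.sum_singleton]
      norm_num
    rw [h4]
    have h5 : 0 ≤ 1 / Real.log x := by
      have := Real.log_nonneg hx1.le
      positivity
    have h6 : (1 / Real.log ((1 + 1 : ℕ) : ℝ)) = 1 / Real.log 2 := by norm_num
    rw [h6] at h2
    have k1 := abs_le.mp h2
    have k2 := abs_le.mp h3
    have k3 := le_abs_self (Real.log (Real.log 2))
    have k4 := neg_abs_le (Real.log (Real.log 2))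
    rw [abs_le]
    constructor <;> linarith [k1.1, k1.2, k2.1, k2.2]
  · have e1 : ∑ p ∈ Pool.Agent.HP.PP 1 x, Real.log p / p = ∑ n ∈ Finset.Ioc 0 x, aP n := by
      unfold Pool.Agent.HP.PP
      rw [Finset.sum_filter]
      symm
      apply Finset.sum_subset_zero_on_sdiff (g := fun n : ℕ => if n.Prime ∧ ¬ n ∣ 1 then Real.log n / n else 0)
      · intro n hn
        rw [Finset.mem_Ioc] at hn
        rw [Finset.mem_range]
        omega
      · intro n hn
        rw [Finset.mem_sdiff, Finset.mem_range, Finset.mem_Ioc] at hn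
        rw [if_neg]
        rintro ⟨hp, _⟩
        have := hp.two_le
        omega
      · intro n hn
        unfold aP
        by_cases hp : n.Prime
        · rw [if_pos hp, if_pos ⟨hp, hp.not_dvd_one⟩]
        · rw [if_neg hp, if_neg (fun h => hp h.1)]
    rw [e1]
    have h2 := (abs_le.mp (h1 x (by omega))).2
    have : 0 ≤ 2 * C * (1 / Real.log 2) + 1 / Real.log 2 + |Real.log (Real.log 2)| + 1 := by positivity
    linarith

end Pool.Agent.Helper21.HP
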