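import Pool.Agent.Helper45.HP.Defs
import Pool.Agent.H62.Lbound

/-!
# Mertens' theorem for quadratic characters (project HP, block B1b)

`∑_{p ≤ x} (Δ/p)/p = O(1)` when `Δ` is not a square. The character `n ↦ (Δ/n)` (zero for even `n`) has the
period `4|Δ|` and takes the value `-1`, so `L(1, χ) ≠ 0`; the rest is Abel summation.
-/

set_option autoImplicit false

open Filter Topology
open scoped ArithmeticFunction NumberTheorySymbols

namespace Pool.Agent.Helper21.HP

/-! ### The character -/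

/-- the quadratic character -/
def ch (Δ : ℤ) (n : ℕ) : ℤ := if n % 2 = 0 then 0 else jacobiSym Δ n

theorem ch_even {Δ : ℤ} {n : ℕ} (h : n % 2 = 0) : ch Δ n = 0 := by simp [ch, h]

theorem ch_odd {Δ : ℤ} {n : ℕ} (h : n % 2 = 1) : ch Δ n = jacobiSym Δ n := by simp [ch, h]

theorem ch_mul (Δ : ℤ) (m n : ℕ) : ch Δ (m * n) = ch Δ m * ch Δ n := by
  rcases Nat.mod_two_eq_zero_or_one m with hm | hm
  · rw [ch_even hm, ch_even (by rw [Nat.mul_mod, hm]; simp), zero_mul]
  rcases Nat.mod_two_eq_zero_or_one n with hn | hn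
  · rw [ch_even hn, ch_even (by rw [Nat.mul_mod, hn]; simp), mul_zero]
  rw [ch_odd hm, ch_odd hn, ch_odd (by rw [Nat.mul_mod, hm, hn]), jacobiSym.mul_right' Δ (by omega) (by omega)]

theorem ch_one (Δ : ℤ) : ch Δ 1 = 1 := by rw [ch_odd rfl, jacobiSym.one_right]

theorem ch_mod {Δ : ℤ} (n : ℕ) : ch Δ (n % (4 * Δ.natAbs)) = ch Δ n := by
  have h2 : n % (4 * Δ.natAbs) % 2 = n % 2 := Nat.mod_mod_of_dvd _ ⟨2 * Δ.natAbs, by ring⟩
  rcases Nat.mod_two_eq_zero_or_one n with hn | hn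
  · rw [ch_even hn, ch_even (by omega)]
  · rw [ch_odd hn, ch_odd (by omega), ← jacobiSym.mod_right Δ (Nat.odd_iff.2 hn)]

theorem abs_ch (Δ : ℤ) (n : ℕ) : |(ch Δ n : ℝ)| ≤ 1 := by
  rcases Nat.mod_two_eq_zero_or_one n with hn | hn
  · rw [ch_even hn]; simp
  · rw [ch_odd hn]
    rcases jacobiSym.trichotomy Δ n with h | h | h <;> rw [h] <;> simp

/-- the Dirichlet character -/
noncomputable def dch (Δ : ℤ) (hΔ : Δ ≠ 0) : DirichletCharacter ℂ (4 * Δ.natAbs) where
  toFun a := ((ch Δ a.val : ℤ) : ℂ)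
  map_one' := by
    have h0 : 0 < Δ.natAbs := Int.natAbs_pos.2 hΔ
    have : Fact (1 < 4 * Δ.natAbs) := ⟨by omega⟩
    rw [ZMod.val_one, ch_one]
    simp
  map_mul' a b := by
    have h0 : 0 < Δ.natAbs := Int.natAbs_pos.2 hΔ
    have : NeZero (4 * Δ.natAbs) := ⟨by omega⟩
    change ((ch Δ (a * b).val : ℤ) : ℂ) = ((ch Δ a.val : ℤ) : ℂ) * ((ch Δ b.val : ℤ) : ℂ)
    rw [ZMod.val_mul, ch_mod, ch_mul]
    push_cast
    rfl
  map_nonunit' a ha := by
    have h0 : 0 < Δ.natAbs := Int.natAbs_pos.2 hΔ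
    have : NeZero (4 * Δ.natAbs) := ⟨by omega⟩
    change ((ch Δ a.val : ℤ) : ℂ) = 0
    have h1 : ¬ Nat.Coprime a.val (4 * Δ.natAbs) := fun h => ha (by
      have := (ZMod.unitOfCoprime a.val h).isUnit
      rwa [ZMod.coe_unitOfCoprime, ZMod.natCast_val, ZMod.cast_id] at this)
    rcases Nat.mod_two_eq_zero_or_one a.val with hn | hn
    · rw [ch_even hn]; simp
    · rw [ch_odd hn]
      have h2 : Nat.Coprime a.val 4 := by
        have := Nat.Coprime.pow_right 2 (Nat.coprime_two_right.2 (Nat.odd_iff.2 hn))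
        exact this
      have h3 : ¬ Nat.Coprime a.val Δ.natAbs := fun h => h1 (Nat.Coprime.mul_right h2 h)
      have : NeZero a.val := ⟨by omega⟩
      have h4 : jacobiSym Δ a.val = 0 := by
        rw [jacobiSym.eq_zero_iff_not_coprime]
        intro h
        apply h3
        rw [Int.gcd_comm] at h
        exact h
      rw [h4]; simp

theorem dch_nat {Δ : ℤ} (hΔ : Δ ≠ 0) (n : ℕ) : dch Δ hΔ (n : ZMod (4 * Δ.natAbs)) = ((ch Δ n : ℤ) : ℂ) := by
  change ((ch Δ (n : ZMod (4 * Δ.natAbs)).val : ℤ) : ℂ) = _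
  rw [ZMod.val_natCast, ch_mod]

/-- a non-square is a non-residue for some Jacobi symbol -/
theorem exists_neg {Δ : ℤ} (h : ¬ IsSquare Δ) : ∃ n : ℕ, ch Δ n = -1 := by
  have hΔ : Δ ≠ 0 := by rintro rfl; exact h ⟨0, by simp⟩
  have h0 : Δ.natAbs ≠ 0 := Int.natAbs_ne_zero.2 hΔ
  obtain ⟨e, m, hm, hem⟩ := Nat.exists_eq_two_pow_mul_odd h0
  obtain ⟨u, hu, hΔu⟩ : ∃ u : ℤ, (u = 1 ∨ u = -1) ∧ Δ = u * (2 ^ e * m) := by
    rcases Int.natAbs_eq Δ with h1 | h1
    · exact ⟨1, Or.inl rfl, by rw [h1, hem]; push_cast; ring⟩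
    · exact ⟨-1, Or.inr rfl, by rw [h1, hem]; push_cast; ring⟩
  have hm0 : m ≠ 0 := by rintro rfl; simp at hm
  have hJ : ∀ n : ℕ, jacobiSym Δ n = jacobiSym u n * (jacobiSym 2 n ^ e * jacobiSym m n) := by
    intro n
    rw [hΔu, jacobiSym.mul_left, jacobiSym.mul_left, jacobiSym.pow_left]
  by_cases hsq : IsSquare m
  · -- `m` is a square
    obtain ⟨s, hs⟩ := hsq
    have hue : u = -1 ∨ ¬ Even e := by
      by_contra hcon
      push Not at hcon
      obtain ⟨h1, k, h2⟩ := hcon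
      apply h
      rcases hu with hu | hu
      · refine ⟨2 ^ k * s, ?_⟩
        rw [hΔu, hu, h2, hs]
        push_cast
        ring
      · exact absurd hu h1
    -- a number `n = 1 mod m`, `n = c mod 8`
    have hcop : Nat.Coprime 8 m := by
      rw [show (8 : ℕ) = 2 ^ 3 by norm_num]
      exact Nat.Coprime.pow_left 3 (Nat.coprime_two_left.2 hm)
    have key : ∀ c : ℕ, c % 2 = 1 → c < 8 → ∃ n : ℕ, n % 8 = c ∧ jacobiSym m n = 1 := by
      intro c hc hc8
      obtain ⟨n, hn1, hn2⟩ := Nat.chineseRemainder hcop c 1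
      have hn8 : n % 8 = c := by
        have : n % 8 = c % 8 := hn1
        omega
      refine ⟨n, hn8, ?_⟩
      have hcn : Nat.Coprime s n := by
        have h1 : Nat.Coprime n m := by
          have := hn2.gcd_eq
          rw [Nat.gcd_one_left] at this
          exact this
        rw [hs] at h1
        exact (Nat.Coprime.coprime_mul_left_right h1).symm
      rw [hs]
      push_cast
      rw [← sq]
      exact jacobiSym.sq_one' (by rw [Int.gcd_natCast_natCast]; exact hcn)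
    by_cases he : Even e
    · -- then `u = -1`
      have hu1 : u = -1 := by tauto
      obtain ⟨n, hn8, hnm⟩ := key 3 rfl (by norm_num)
      have hno : Odd n := Nat.odd_iff.2 (by omega)
      refine ⟨n, ?_⟩
      rw [ch_odd (by omega), hJ, hnm, hu1, jacobiSym.at_neg_one hno, jacobiSym.at_two hno]
      obtain ⟨k, hk⟩ := he
      rw [ZMod.χ₄_nat_eq_if_mod_four, ZMod.χ₈_nat_eq_if_mod_eight, if_neg (by omega), if_neg (by omega),
        if_neg (by omega), if_neg (by omega), hk, ← two_mul, pow_mul]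
      norm_num
    · obtain ⟨n, hn8, hnm⟩ := key 5 rfl (by norm_num)
      have hno : Odd n := Nat.odd_iff.2 (by omega)
      refine ⟨n, ?_⟩
      rw [ch_odd (by omega), hJ, hnm, jacobiSym.at_two hno, ZMod.χ₈_nat_eq_if_mod_eight, if_neg (by omega),
        if_neg (by omega), (Nat.not_even_iff_odd.1 he).neg_one_pow]
      rcases hu with hu | hu
      · rw [hu]; simp
      · rw [hu, jacobiSym.at_neg_one hno, ZMod.χ₄_nat_eq_if_mod_four, if_neg (by omega), if_pos (by omega)]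
        norm_num
  · -- an odd prime with an odd exponent
    have hex : ∃ q : ℕ, q.Prime ∧ ¬ Even (m.factorization q) := by
      by_contra hcon
      push Not at hcon
      apply hsq
      have h1 : ∀ q ∈ m.primeFactors, m.factorization q = 2 * (m.factorization q / 2) := by
        intro q hq
        obtain ⟨k, hk⟩ := hcon q (Nat.prime_of_mem_primeFactors hq)
        omega
      refine ⟨∏ q ∈ m.primeFactors, q ^ (m.factorization q / 2), ?_⟩
      conv_lhs => rw [← Nat.prod_factorization_pow_eq_self hm0]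
      rw [Finsupp.prod, Nat.support_factorization, ← Finset.prod_mul_distrib]
      refine Finset.prod_congr rfl fun q hq => ?_
      rw [← pow_add]
      congr 1
      have := h1 q hq
      omega
    obtain ⟨q, hq, hqe⟩ := hex
    have : Fact q.Prime := ⟨hq⟩
    obtain ⟨a, m', hm', ham⟩ : ∃ a m', ¬ q ∣ m' ∧ m = q ^ a * m' :=
      ⟨m.factorization q, m / q ^ m.factorization q, Nat.not_dvd_ordCompl hq hm0, (Nat.ordProj_mul_ordCompl_eq_self m q).symm⟩
    have hfa : m.factorization q = a := by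
      have hm'0 : m' ≠ 0 := by rintro rfl; simp at hm'
      rw [ham, Nat.factorization_mul (pow_ne_zero _ hq.ne_zero) hm'0]
      simp [hq.factorization_self, Nat.factorization_eq_zero_of_not_dvd hm']
    have ha : Odd a := by rw [← hfa]; exact Nat.not_even_iff_odd.1 hqe
    have hqm : q ∣ m := by
      rw [ham]
      exact Dvd.dvd.mul_right (dvd_pow_self q (by rintro rfl; simp at ha)) _
    have hqo : q % 2 = 1 := by
      have := Odd.of_dvd_nat hm hqm
      exact Nat.odd_iff.1 this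
    have hq2 : q ≠ 2 := by omega
    have hm'o : Odd m' := Odd.of_dvd_nat hm ⟨q ^ a, by rw [ham]; ring⟩
    obtain ⟨r, hr⟩ : ∃ r : ZMod q, quadraticChar (ZMod q) r = -1 := by
      have := quadraticChar_exists_neg_one (F := ZMod q) (by rw [ZMod.ringChar_zmod_n]; exact hq2)
      exact this
    have hcop : Nat.Coprime (8 * m') q := by
      refine Nat.Coprime.mul_left ?_ ?_
      · rw [show (8 : ℕ) = 2 ^ 3 by norm_num]
        exact Nat.Coprime.pow_left 3 (Nat.coprime_two_left.2 (Nat.odd_iff.2 hqo))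
      · exact ((Nat.Prime.coprime_iff_not_dvd hq).2 hm').symm
    obtain ⟨n, hn1, hn2⟩ := Nat.chineseRemainder hcop 1 r.val
    have hn8 : n % 8 = 1 := by
      have := hn1.of_mul_right m'
      exact this
    have hnm : n ≡ 1 [MOD m'] := hn1.of_mul_left 8
    have hno : Odd n := Nat.odd_iff.2 (by omega)
    refine ⟨n, ?_⟩
    have h1 : jacobiSym n q = -1 := by
      rw [← jacobiSym.legendreSym.to_jacobiSym, legendreSym]
      have : ((n : ℤ) : ZMod q) = r := by
        push_cast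
        have h2 := (ZMod.natCast_eq_natCast_iff n r.val q).2 hn2
        rw [h2, ZMod.natCast_val, ZMod.cast_id]
      rw [this]
      exact hr
    have h2 : jacobiSym n m' = 1 := by
      rw [jacobiSym.mod_left' (a₂ := 1), jacobiSym.one_left]
      have := hnm
      unfold Nat.ModEq at this
      exact_mod_cast this
    have h3 : jacobiSym m n = -1 := by
      rw [← jacobiSym.quadratic_reciprocity_one_mod_four (a := n) (b := m) (by omega) hm, ham,
        jacobiSym.mul_right' _ (pow_ne_zero _ hq.ne_zero) (by rintro rfl; simp at hm'), jacobiSym.pow_right, h1, h2, ha.neg_one_pow]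
      norm_num
    rw [ch_odd (by omega), hJ, h3, jacobiSym.at_two hno, ZMod.χ₈_nat_eq_if_mod_eight, if_neg (by omega),
      if_pos (by omega), one_pow]
    rcases hu with hu | hu
    · rw [hu, jacobiSym.one_left]; norm_num
    · rw [hu, jacobiSym.at_neg_one hno, ZMod.χ₄_nat_eq_if_mod_four, if_neg (by omega), if_pos (by omega)]
      norm_num

theorem dch_ne {Δ : ℤ} (h : ¬ IsSquare Δ) (hΔ : Δ ≠ 0) : dch Δ hΔ ≠ 1 := by
  intro h1
  obtain ⟨n, hn⟩ := exists_neg h
  have h2 := dch_nat hΔ n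
  rw [h1, hn] at h2
  by_cases hu : IsUnit (n : ZMod (4 * Δ.natAbs))
  · rw [MulChar.one_apply hu] at h2
    norm_num at h2
  · rw [MulChar.map_nonunit _ hu] at h2
    norm_num at h2

/-! ### Abel summation -/

theorem abel (a f : ℕ → ℝ) {K : ℝ} (hA : ∀ n, |∑ m ∈ Finset.Ioc 0 n, a m| ≤ K) {M N : ℕ} (h : M ≤ N)
    (hf0 : ∀ n, M + 1 ≤ n → 0 ≤ f n) (hf : ∀ n, M + 1 ≤ n → f (n + 1) ≤ f n) :
    |∑ m ∈ Finset.Ioc M N, a m * f m| ≤ 2 * K * f (M + 1) := by
  have key : |∑ m ∈ Finset.Ioc M N, a m * f m - ((∑ m ∈ Finset.Ioc 0 N, a m) * f (N + 1) -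
      (∑ m ∈ Finset.Ioc 0 M, a m) * f (M + 1))| ≤ K * (f (M + 1) - f (N + 1)) := by
    induction N, h using Nat.le_induction with
    | base => simp
    | succ N hN ih =>
      rw [Finset.sum_Ioc_succ_top (by omega : M ≤ N), Finset.sum_Ioc_succ_top (Nat.zero_le N)]
      have h1 := hA (N + 1)
      rw [Finset.sum_Ioc_succ_top (Nat.zero_le N)] at h1
      have h2 := hf (N + 1) (by omega)
      set A := ∑ m ∈ Finset.Ioc 0 N, a m
      set A' := ∑ m ∈ Finset.Ioc 0 M, a m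
      set S := ∑ m ∈ Finset.Ioc M N, a m * f m
      have h3 : S + a (N + 1) * f (N + 1) - ((A + a (N + 1)) * f (N + 1 + 1) - A' * f (M + 1)) =
          (S - (A * f (N + 1) - A' * f (M + 1))) + (A + a (N + 1)) * (f (N + 1) - f (N + 1 + 1)) := by ring
      rw [h3]
      have h4 : |(A + a (N + 1)) * (f (N + 1) - f (N + 1 + 1))| ≤ K * (f (N + 1) - f (N + 1 + 1)) := by
        rw [abs_mul, abs_of_nonneg (by linarith : 0 ≤ f (N + 1) - f (N + 1 + 1))]
        exact mul_le_mul_of_nonneg_right h1 (by linarith)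
      calc _ ≤ |S - (A * f (N + 1) - A' * f (M + 1))| + |(A + a (N + 1)) * (f (N + 1) - f (N + 1 + 1))| := abs_add_le _ _
        _ ≤ K * (f (M + 1) - f (N + 1)) + K * (f (N + 1) - f (N + 1 + 1)) := add_le_add ih h4
        _ = _ := by ring
  have h1 := hA N
  have h2 := hA M
  have h3 := hf0 (N + 1) (by omega)
  have h4 := hf0 (M + 1) le_rfl
  have h5 : |(∑ m ∈ Finset.Ioc 0 N, a m) * f (N + 1)| ≤ K * f (N + 1) := by
    rw [abs_mul, abs_of_nonneg h3]
    exact mul_le_mul_of_nonneg_right h1 h3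
  have h6 : |(∑ m ∈ Finset.Ioc 0 M, a m) * f (M + 1)| ≤ K * f (M + 1) := by
    rw [abs_mul, abs_of_nonneg h4]
    exact mul_le_mul_of_nonneg_right h2 h4
  have k1 := abs_le.mp key
  have k2 := abs_le.mp h5
  have k3 := abs_le.mp h6
  rw [abs_le]
  constructor <;> linarith [k1.1, k1.2, k2.1, k2.2, k3.1, k3.2]

/-! ### The L-series at 1 -/

/-- the bound of the character sums -/
noncomputable def KK (Δ : ℤ) : ℝ := ((4 * Δ.natAbs : ℕ) : ℝ)

theorem sum_ch {Δ : ℤ} (h : ¬ IsSquare Δ) (n : ℕ) : |∑ m ∈ Finset.Ioc 0 n, (ch Δ m : ℝ)| ≤ KK Δ := by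
  have hΔ : Δ ≠ 0 := by rintro rfl; exact h ⟨0, by simp⟩
  have h0 : 0 < Δ.natAbs := Int.natAbs_pos.2 hΔ
  have : NeZero (4 * Δ.natAbs) := ⟨by omega⟩
  have h1 := Pool.Agent.H62.norm_sum_Icc_le (dch_ne h hΔ) (by omega) n
  have h2 : ∑ k ∈ Finset.Icc 1 n, dch Δ hΔ (k : ZMod (4 * Δ.natAbs)) =
      ((∑ m ∈ Finset.Ioc 0 n, (ch Δ m : ℝ) : ℝ) : ℂ) := by
    rw [Complex.ofReal_sum]
    refine Finset.sum_congr rfl fun k _ => ?_
    rw [dch_nat]
    push_cast
    rfl
  rw [h2, Complex.norm_real, Real.norm_eq_abs] at h1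
  exact h1

/-- the partial sums of the L-series at 1 -/
noncomputable def B (Δ : ℤ) (N : ℕ) : ℝ := ∑ m ∈ Finset.Ioc 0 N, (ch Δ m : ℝ) * (1 / (m : ℝ))

theorem B_sub {Δ : ℤ} (h : ¬ IsSquare Δ) {M N : ℕ} (hMN : M ≤ N) :
    |B Δ N - B Δ M| ≤ 2 * KK Δ / ((M : ℝ) + 1) := by
  have h1 : B Δ N - B Δ M = ∑ m ∈ Finset.Ioc M N, (ch Δ m : ℝ) * (1 / (m : ℝ)) := by
    rw [B, B, ← Finset.sum_Ioc_consecutive _ (Nat.zero_le M) hMN, add_sub_cancel_left]
  rw [h1]
  have h2 := abel (fun m => (ch Δ m : ℝ)) (fun m => 1 / (m : ℝ)) (sum_ch h) hMN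
    (fun n _ => by positivity) (fun n hn => by
      have h3 : (0 : ℝ) < n := by exact_mod_cast (show 0 < n by omega)
      push_cast
      exact one_div_le_one_div_of_le h3 (by linarith))
  refine h2.trans (le_of_eq ?_)
  push_cast
  ring

open MeasureTheory Set in
theorem B_tendsto {Δ : ℤ} (h : ¬ IsSquare Δ) (hΔ : Δ ≠ 0) [NeZero (4 * Δ.natAbs)] :
    Tendsto (fun n => ((B Δ n : ℝ) : ℂ)) atTop (𝓝 (DirichletCharacter.LFunction (dch Δ hΔ) 1)) := by
  have h0 : 0 < Δ.natAbs := Int.natAbs_pos.2 hΔ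
  have hne := dch_ne h hΔ
  set χ := dch Δ hΔ with hχ
  have hK0 : 0 ≤ KK Δ := by unfold KK; positivity
  have hA : ∀ n : ℕ, ∑ k ∈ Finset.Icc 0 n, (χ (k : ZMod (4 * Δ.natAbs)) : ℂ) =
      ∑ k ∈ Finset.Icc 1 n, (χ (k : ZMod (4 * Δ.natAbs)) : ℂ) := by
    intro n
    rw [← Finset.add_sum_Ioc_eq_sum_Icc (Nat.zero_le n)]
    have h1 : (χ ((0 : ℕ) : ZMod (4 * Δ.natAbs)) : ℂ) = 0 := by
      rw [hχ, dch_nat, ch_even rfl]; simp
    rw [h1, zero_add]
    rfl
  have hAb : ∀ n : ℕ, ‖∑ k ∈ Finset.Icc 0 n, (χ (k : ZMod (4 * Δ.natAbs)) : ℂ)‖ ≤ KK Δ := by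
    intro n
    rw [hA]
    exact Pool.Agent.H62.norm_sum_Icc_le hne (by omega) n
  have hd : ∀ t : ℝ, t ≠ 0 → HasDerivAt (fun t : ℝ => ((t⁻¹ : ℝ) : ℂ)) ((-(t ^ 2)⁻¹ : ℝ) : ℂ) t := by
    intro t ht
    exact (hasDerivAt_inv ht).ofReal_comp
  have hdd : ∀ t ∈ Ici (1 : ℝ), deriv (fun t : ℝ => ((t⁻¹ : ℝ) : ℂ)) t = ((-(t ^ 2)⁻¹ : ℝ) : ℂ) := by
    intro t ht
    have : (1 : ℝ) ≤ t := ht
    exact (hd t (by linarith)).deriv
  have key := tendsto_sum_mul_atTop_nhds_one_sub_integral₀ (𝕜 := ℂ) (c := fun k : ℕ => (χ (k : ZMod (4 * Δ.natAbs)) : ℂ))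
    (f := fun t : ℝ => ((t⁻¹ : ℝ) : ℂ)) (l := 0) (g := fun t : ℝ => t ^ (-2 : ℝ))
    (by
      change (χ ((0 : ℕ) : ZMod (4 * Δ.natAbs)) : ℂ) = 0
      rw [hχ, dch_nat, ch_even rfl]; simp)
    (fun t ht => (hd t (by have : (1 : ℝ) ≤ t := ht
                           linarith)).differentiableAt)
    (by
      refine ContinuousOn.locallyIntegrableOn ?_ measurableSet_Ici
      refine ContinuousOn.congr ?_ hdd
      refine Complex.continuous_ofReal.comp_continuousOn ?_
      refine ContinuousOn.neg (ContinuousOn.inv₀ (by fun_prop) fun t ht => ?_)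
      have : (1 : ℝ) ≤ t := ht
      positivity)
    (by
      refine squeeze_zero_norm (a := fun n : ℕ => KK Δ * ((n : ℝ)⁻¹)) (fun n => ?_) ?_
      · rw [norm_mul, Complex.norm_real, Real.norm_of_nonneg (by positivity), mul_comm]
        exact mul_le_mul_of_nonneg_right (hAb n) (by positivity)
      · have := (tendsto_inv_atTop_nhds_zero_nat (𝕜 := ℝ)).const_mul (KK Δ)
        rw [mul_zero] at this
        exact this)
    (by
      refine Asymptotics.IsBigO.of_bound (KK Δ) ?_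
      filter_upwards [eventually_ge_atTop (1 : ℝ)] with t ht
      have ht0 : 0 < t := by linarith
      rw [hdd t ht, norm_mul, Complex.norm_real, norm_neg, Real.norm_of_nonneg (by positivity),
        Real.norm_of_nonneg (by positivity), mul_comm, Real.rpow_neg ht0.le, Real.rpow_two]
      exact mul_le_mul_of_nonneg_right (hAb _) (by positivity))
    ⟨Ioi 1, Ioi_mem_atTop 1, integrableOn_Ioi_rpow_of_lt (by norm_num) one_pos⟩
  have e1 : ∀ n : ℕ, ∑ k ∈ Finset.Icc 0 n, (((k : ℝ)⁻¹ : ℝ) : ℂ) * (χ (k : ZMod (4 * Δ.natAbs)) : ℂ) = ((B Δ n : ℝ) : ℂ) := by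
    intro n
    rw [← Finset.add_sum_Ioc_eq_sum_Icc (Nat.zero_le n), B, Complex.ofReal_sum]
    simp only [Nat.cast_zero, inv_zero, Complex.ofReal_zero, zero_mul, zero_add]
    refine Finset.sum_congr rfl fun k _ => ?_
    rw [hχ, dch_nat]
    push_cast
    ring
  have e2 : (0 : ℂ) - ∫ t in Ioi (1 : ℝ), deriv (fun t : ℝ => ((t⁻¹ : ℝ) : ℂ)) t *
      ∑ k ∈ Finset.Icc 0 ⌊t⌋₊, (χ (k : ZMod (4 * Δ.natAbs)) : ℂ) = DirichletCharacter.LFunction χ 1 := by
    rw [Pool.Agent.H62.LFunction_eq_mellin hne (by simp), Pool.Agent.H62.mellin_Af_eq, one_mul, zero_sub,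
      ← integral_neg]
    refine setIntegral_congr_fun measurableSet_Ioi fun t ht => ?_
    have ht1 : (1 : ℝ) < t := ht
    have ht0 : 0 < t := by linarith
    change -(deriv (fun t : ℝ => ((t⁻¹ : ℝ) : ℂ)) t *
      ∑ k ∈ Finset.Icc 0 ⌊t⌋₊, (χ (k : ZMod (4 * Δ.natAbs)) : ℂ)) = _
    rw [hdd t ht1.le, hA]
    have e3 : (t : ℂ) ^ (-((1 : ℂ) + 1)) = (((t ^ 2)⁻¹ : ℝ) : ℂ) := by
      rw [show (-((1 : ℂ) + 1)) = ((-2 : ℝ) : ℂ) by push_cast; ring, ← Complex.ofReal_cpow ht0.le,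
        Real.rpow_neg ht0.le, Real.rpow_two]
    rw [e3]
    push_cast
    ring
  rw [e2] at key
  refine key.congr fun n => ?_
  exact e1 n

theorem exists_L {Δ : ℤ} (h : ¬ IsSquare Δ) :
    ∃ L : ℝ, L ≠ 0 ∧ ∀ N : ℕ, |B Δ N - L| ≤ 2 * KK Δ / ((N : ℝ) + 1) := by
  have hΔ : Δ ≠ 0 := by rintro rfl; exact h ⟨0, by simp⟩
  have h0 : 0 < Δ.natAbs := Int.natAbs_pos.2 hΔ
  have : NeZero (4 * Δ.natAbs) := ⟨by omega⟩
  have h1 := B_tendsto h hΔ
  have h2 := DirichletCharacter.LFunction_apply_one_ne_zero (dch_ne h hΔ)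
  set l := DirichletCharacter.LFunction (dch Δ hΔ) 1
  have h3 : Tendsto (fun n => B Δ n) atTop (𝓝 l.re) := by
    have := (Complex.continuous_re.tendsto l).comp h1
    exact this
  refine ⟨l.re, ?_, fun N => ?_⟩
  · intro h4
    apply h2
    have h5 : Tendsto (fun n => ((B Δ n : ℝ) : ℂ)) atTop (𝓝 ((l.re : ℝ) : ℂ)) :=
      (Complex.continuous_ofReal.tendsto _).comp h3
    rw [tendsto_nhds_unique h1 h5, h4, Complex.ofReal_zero]
  · have h4 : Tendsto (fun M => |B Δ N - B Δ M|) atTop (𝓝 |B Δ N - l.re|) :=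
      (tendsto_const_nhds.sub h3).abs
    refine le_of_tendsto h4 ?_
    filter_upwards [eventually_ge_atTop N] with M hM
    rw [abs_sub_comm]
    exact B_sub h hM

/-! ### Sums of the von Mangoldt function -/

theorem psi_range (N : ℕ) : ∑ d ∈ Finset.range (N + 1), Λ d ≤ (Real.log 4 + 4) * N := by
  have h := Chebyshev.psi_le_const_mul_self (x := (N:ℝ)) (by positivity)
  rw [Chebyshev.psi_eq_sum_Icc, Nat.floor_natCast] at h
  refine le_trans (le_of_eq ?_) h
  apply Finset.sum_congr _ (fun _ _ => rfl)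
  ext d
  simp

theorem sum_Ioc_eq_range (f : ℕ → ℝ) (hf : f 0 = 0) (N : ℕ) :
    ∑ d ∈ Finset.Ioc 0 N, f d = ∑ d ∈ Finset.range (N + 1), f d := by
  induction N with
  | zero => simp [hf]
  | succ N ih => rw [Finset.sum_Ioc_succ_top (Nat.zero_le N), Finset.sum_range_succ, ih]

theorem non_primes : ∃ C : ℝ, 0 ≤ C ∧ ∀ s : Finset ℕ, ∑ n ∈ s, (if n.Prime then 0 else Λ n) / (n : ℝ) ≤ C := by
  have hsum := ArithmeticFunction.vonMangoldt.summable_residueClass_non_primes_div (q := 1) 0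
  set NP : ℝ := ∑' n : ℕ, (if n.Prime then 0 else
    ArithmeticFunction.vonMangoldt.residueClass (0 : ZMod 1) n) / n with hNP
  have hres : ∀ n : ℕ, ArithmeticFunction.vonMangoldt.residueClass (0 : ZMod 1) n = Λ n := by
    intro n
    have h1 : n ∈ {n : ℕ | (n : ZMod 1) = 0} := Subsingleton.elim _ _
    exact Set.indicator_of_mem h1 _
  have hterm : ∀ n : ℕ, 0 ≤ (if n.Prime then 0 else
      ArithmeticFunction.vonMangoldt.residueClass (0 : ZMod 1) n) / (n : ℝ) := by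
    intro n
    rw [hres]
    have := @ArithmeticFunction.vonMangoldt_nonneg n
    split_ifs <;> positivity
  have hnp : ∀ s : Finset ℕ, ∑ n ∈ s, (if n.Prime then 0 else Λ n) / (n : ℝ) ≤ NP := by
    intro s
    have h1 := hsum.sum_le_tsum s fun n _ => hterm n
    simp only [hres] at h1
    rw [hNP]
    simp only [hres]
    exact h1
  exact ⟨NP, by simpa using hnp ∅, hnp⟩

/-! ### The twisted Mertens sum -/

/-- the derivative of the L-series at 1 -/
noncomputable def T (Δ : ℤ) (N : ℕ) : ℝ := ∑ n ∈ Finset.Ioc 0 N, (ch Δ n : ℝ) * (Real.log n / n)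

theorem KK_nonneg (Δ : ℤ) : 0 ≤ KK Δ := by unfold KK; positivity

theorem abs_T {Δ : ℤ} (h : ¬ IsSquare Δ) (N : ℕ) : |T Δ N| ≤ 2 * KK Δ := by
  have h2 : T Δ 2 = 0 := by
    rw [T, show (2 : ℕ) = 0 + 1 + 1 by norm_num, Finset.sum_Ioc_succ_top (by norm_num),
      Finset.sum_Ioc_succ_top (by norm_num), ch_even (n := 0 + 1 + 1) rfl]
    simp
  have hK := KK_nonneg Δ
  by_cases hN : N < 2
  · interval_cases N
    · simpa [T] using hK
    · have h1 : T Δ (0 + 1) = 0 := by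
        rw [T, Finset.sum_Ioc_succ_top (by norm_num)]
        simp
      change |T Δ (0 + 1)| ≤ _
      rw [h1, abs_zero]
      linarith
  · have h3 : T Δ N = ∑ n ∈ Finset.Ioc 2 N, (ch Δ n : ℝ) * (Real.log n / n) := by
      rw [T, ← Finset.sum_Ioc_consecutive _ (Nat.zero_le 2) (not_lt.1 hN)]
      change T Δ 2 + _ = _
      rw [h2, zero_add]
    rw [h3]
    have h4 := abel (fun m => (ch Δ m : ℝ)) (fun n => Real.log n / n) (sum_ch h) (not_lt.1 hN)
      (fun n _ => div_nonneg (Real.log_natCast_nonneg n) (Nat.cast_nonneg n)) (fun n hn => ?_)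
    · refine h4.trans ?_
      have h5 : Real.log ((2 + 1 : ℕ) : ℝ) / ((2 + 1 : ℕ) : ℝ) ≤ 1 := by
        push_cast
        rw [div_le_one (by norm_num)]
        have := Real.log_le_sub_one_of_pos (show (0 : ℝ) < 3 by norm_num)
        norm_num at this ⊢
        linarith
      calc 2 * KK Δ * (Real.log ((2 + 1 : ℕ) : ℝ) / ((2 + 1 : ℕ) : ℝ)) ≤ 2 * KK Δ * 1 := by gcongr
        _ = _ := by ring
    · have h5 : (3 : ℝ) ≤ n := by exact_mod_cast hn
      have h6 := Real.exp_one_lt_d9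
      refine Real.log_div_self_antitoneOn ?_ ?_ ?_
      · change Real.exp 1 ≤ (n : ℝ)
        linarith
      · change Real.exp 1 ≤ ((n + 1 : ℕ) : ℝ)
        push_cast
        linarith
      · push_cast
        linarith

/-- the arithmetic function `χ Λ / id` -/
noncomputable def fL (Δ : ℤ) : ArithmeticFunction ℝ := ⟨fun n => (ch Δ n : ℝ) * Λ n / n, by simp⟩

/-- the arithmetic function `χ / id` -/
noncomputable def gL (Δ : ℤ) : ArithmeticFunction ℝ := ⟨fun n => (ch Δ n : ℝ) * (1 / (n : ℝ)), by simp⟩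

theorem fgL (Δ : ℤ) (n : ℕ) : (fL Δ * gL Δ) n = (ch Δ n : ℝ) * (Real.log n / n) := by
  rw [ArithmeticFunction.mul_apply]
  have h1 : ∀ x ∈ n.divisorsAntidiagonal, fL Δ x.1 * gL Δ x.2 = (ch Δ n : ℝ) / n * Λ x.1 := by
    rintro ⟨a, b⟩ hx
    rw [Nat.mem_divisorsAntidiagonal] at hx
    obtain ⟨h1, h2⟩ := hx
    change (ch Δ a : ℝ) * Λ a / a * ((ch Δ b : ℝ) * (1 / (b : ℝ))) = (ch Δ n : ℝ) / n * Λ a
    rw [← h1, ch_mul]
    push_cast
    ring
  rw [Finset.sum_congr rfl h1, ← Finset.mul_sum,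
    Nat.sum_divisorsAntidiagonal (fun a _ => Λ a), ArithmeticFunction.vonMangoldt_sum]
  ring

/-- the twisted Mertens sum -/
noncomputable def S (Δ : ℤ) (N : ℕ) : ℝ := ∑ n ∈ Finset.Ioc 0 N, (ch Δ n : ℝ) * Λ n / n

theorem T_eq (Δ : ℤ) (N : ℕ) : T Δ N = ∑ d ∈ Finset.Ioc 0 N, (ch Δ d : ℝ) * Λ d / d * B Δ (N / d) := by
  have h1 := ArithmeticFunction.sum_Ioc_mul_eq_sum_sum (fL Δ) (gL Δ) N
  rw [Finset.sum_congr rfl fun n _ => fgL Δ n] at h1
  exact h1

theorem exists_S {Δ : ℤ} (h : ¬ IsSquare Δ) : ∃ C : ℝ, 0 ≤ C ∧ ∀ N : ℕ, |S Δ N| ≤ C := by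
  obtain ⟨L, hL, hB⟩ := exists_L h
  have hK := KK_nonneg Δ
  have hL0 : 0 < |L| := abs_pos.2 hL
  have hlog4 : 0 ≤ Real.log 4 := Real.log_nonneg (by norm_num)
  refine ⟨(2 * KK Δ + 2 * KK Δ * (Real.log 4 + 4)) / |L|, by positivity, fun N => ?_⟩
  rcases Nat.eq_zero_or_pos N with rfl | hN
  · simp only [S, Finset.Ioc_self, Finset.sum_empty, abs_zero]
    positivity
  have hN0 : (0 : ℝ) < N := by exact_mod_cast hN
  have h1 : L * S Δ N = T Δ N - ∑ d ∈ Finset.Ioc 0 N, (ch Δ d : ℝ) * Λ d / d * (B Δ (N / d) - L) := by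
    rw [T_eq, S, Finset.mul_sum, ← Finset.sum_sub_distrib]
    exact Finset.sum_congr rfl fun d _ => by ring
  have h2 : |∑ d ∈ Finset.Ioc 0 N, (ch Δ d : ℝ) * Λ d / d * (B Δ (N / d) - L)| ≤ 2 * KK Δ * (Real.log 4 + 4) := by
    have h3 : ∀ d ∈ Finset.Ioc 0 N, |(ch Δ d : ℝ) * Λ d / d * (B Δ (N / d) - L)| ≤ Λ d * (2 * KK Δ / N) := by
      intro d hd
      rw [Finset.mem_Ioc] at hd
      have hd0 : (0 : ℝ) < d := by exact_mod_cast hd.1
      have h4 : 2 * KK Δ / (((N / d : ℕ) : ℝ) + 1) ≤ 2 * KK Δ * (d / N) := by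
        rw [div_eq_mul_one_div]
        refine mul_le_mul_of_nonneg_left ?_ (by positivity)
        rw [div_le_div_iff₀ (by positivity) hN0]
        have h6 : N < d * (N / d) + d := by
          have := Nat.div_add_mod N d
          have := Nat.mod_lt N hd.1
          omega
        have h8 : (N:ℝ) < d * ((N / d : ℕ) : ℝ) + d := by exact_mod_cast h6
        linarith
      rw [abs_mul, abs_div, abs_mul, abs_of_nonneg ArithmeticFunction.vonMangoldt_nonneg,
        abs_of_pos hd0]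
      calc |(ch Δ d : ℝ)| * Λ d / d * |B Δ (N / d) - L| ≤ 1 * Λ d / d * (2 * KK Δ * (d / N)) := by
            have := (hB (N / d)).trans h4
            have := abs_ch Δ d
            have := @ArithmeticFunction.vonMangoldt_nonneg d
            gcongr
        _ = Λ d * (2 * KK Δ / N) := by field_simp
    refine (Finset.abs_sum_le_sum_abs _ _).trans ((Finset.sum_le_sum h3).trans ?_)
    rw [← Finset.sum_mul, sum_Ioc_eq_range (fun d => Λ d) (by simp) N]
    have h4 := psi_range N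
    calc _ ≤ (Real.log 4 + 4) * N * (2 * KK Δ / N) := by gcongr
      _ = 2 * KK Δ * (Real.log 4 + 4) := by field_simp
  have h3 : |L * S Δ N| ≤ 2 * KK Δ + 2 * KK Δ * (Real.log 4 + 4) := by
    rw [h1]
    exact (abs_sub _ _).trans (add_le_add (abs_T h N) h2)
  rw [abs_mul] at h3
  rw [le_div_iff₀ hL0, mul_comm]
  exact h3

/-- the sum over the primes -/
theorem exists_P {Δ : ℤ} (h : ¬ IsSquare Δ) : ∃ C : ℝ, 0 ≤ C ∧ ∀ N : ℕ,
    |∑ n ∈ Finset.Ioc 0 N, if n.Prime then (ch Δ n : ℝ) * (Real.log n / n) else 0| ≤ C := by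
  obtain ⟨C1, hC1, h1⟩ := exists_S h
  obtain ⟨C2, hC2, h2⟩ := non_primes
  refine ⟨C1 + C2, by positivity, fun N => ?_⟩
  have h3 : ∑ n ∈ Finset.Ioc 0 N, (if n.Prime then (ch Δ n : ℝ) * (Real.log n / n) else 0) =
      S Δ N - ∑ n ∈ Finset.Ioc 0 N, (ch Δ n : ℝ) * ((if n.Prime then 0 else Λ n) / (n : ℝ)) := by
    rw [S, ← Finset.sum_sub_distrib]
    refine Finset.sum_congr rfl fun n _ => ?_
    by_cases hp : n.Prime
    · rw [if_pos hp, if_pos hp, ArithmeticFunction.vonMangoldt_apply_prime hp]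
      ring
    · rw [if_neg hp, if_neg hp]
      ring
  rw [h3]
  refine (abs_sub _ _).trans (add_le_add (h1 N) ?_)
  refine (Finset.abs_sum_le_sum_abs _ _).trans (le_trans (Finset.sum_le_sum fun n _ => ?_) (h2 (Finset.Ioc 0 N)))
  have h4 : 0 ≤ (if n.Prime then 0 else Λ n) / (n : ℝ) := by
    have := @ArithmeticFunction.vonMangoldt_nonneg n
    split_ifs <;> positivity
  rw [abs_mul, abs_of_nonneg h4]
  exact mul_le_of_le_one_left h4 (abs_ch Δ n)

/-- BLOCK B1b: Mertens for quadratic characters. -/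
theorem char : Pool.Agent.HP.StmtChar := by
  intro Δ h
  obtain ⟨C, hC, h1⟩ := exists_P h
  refine ⟨2 * C * (1 / Real.log 2), fun x => ?_⟩
  have hlog2 : 0 < Real.log 2 := Real.log_pos (by norm_num)
  have e1 : ∑ p ∈ Pool.Agent.HP.PP 2 x, (jacobiSym Δ p : ℝ) / p =
      ∑ n ∈ Finset.Ioc 1 x, (if n.Prime then (ch Δ n : ℝ) * (Real.log n / n) else 0) * (1 / Real.log n) := by
    unfold Pool.Agent.HP.PP
    rw [Finset.sum_filter]
    symm
    apply Finset.sum_subset_zero_on_sdiff (g := fun n => if n.Prime ∧ ¬ n ∣ 2 then (jacobiSym Δ n : ℝ) / n else 0)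
    · intro n hn
      rw [Finset.mem_Ioc] at hn
      rw [Finset.mem_range]
      omega
    · intro n hn
      rw [Finset.mem_sdiff, Finset.mem_range, Finset.mem_Ioc] at hn
      rw [if_neg]
      rintro ⟨hp, _⟩
      have := hp.two_le
      omega
    · intro n hn
      by_cases hp : n.Prime
      · have hlog : Real.log n ≠ 0 := (Real.log_pos (by exact_mod_cast hp.one_lt)).ne'
        rw [if_pos hp]
        rcases hp.eq_two_or_odd with h2 | h2
        · subst h2
          rw [if_neg (by simp), ch_even rfl]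
          simp
        · rw [if_pos ⟨hp, fun hd => by
            have := Nat.le_of_dvd (by norm_num) hd
            have := hp.two_le
            omega⟩, ch_odd h2]
          field_simp
      · rw [if_neg hp, if_neg (fun h => hp h.1), zero_mul]
  rw [e1]
  rcases Nat.lt_or_ge x 1 with hx | hx
  · have : Finset.Ioc 1 x = ∅ := Finset.Ioc_eq_empty (by omega)
    rw [this, Finset.sum_empty, abs_zero]
    positivity
  have h2 := abel _ (fun n : ℕ => 1 / Real.log n) h1 hx (fun n _ => by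
    have := Real.log_natCast_nonneg n
    positivity) (fun n hn => by
    have h3 : (1 : ℝ) < n := by exact_mod_cast (show 1 < n by omega)
    have h4 := Real.log_pos h3
    apply one_div_le_one_div_of_le h4
    apply Real.log_le_log (by linarith)
    push_cast
    linarith)
  refine h2.trans (le_of_eq ?_)
  norm_num

end Pool.Agent.Helper21.HP
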